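import Mathlib

/-!
Compact perfect subsets of the line: cutting at gaps and extracting intervals.
-/

namespace Pool.Agent.Lib.MP_8027ba_an

open Set Filter Topology

/-- a fixed enumeration of the rational numbers -/
noncomputable def q (n : ℕ) : ℝ := ((Classical.choose (exists_surjective_nat ℚ)) n : ℝ)

theorem q_dense {a b : ℝ} (h : a < b) : ∃ n, a < q n ∧ q n < b := by
  obtain ⟨r, h1, h2⟩ := exists_rat_btwn h
  obtain ⟨n, hn⟩ := Classical.choose_spec (exists_surjective_nat ℚ) r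
  refine ⟨n, ?_, ?_⟩ <;> simpa [q, hn] using by assumption

/-- nonempty compact set without isolated points -/
structure Good (P : Set ℝ) : Prop where
  comp : IsCompact P
  ne : P.Nonempty
  acc : ∀ x ∈ P, ∀ ε : ℝ, 0 < ε → ∃ y ∈ P, y ≠ x ∧ |y - x| < ε

namespace Good

variable {P : Set ℝ}

theorem inf_mem (h : Good P) : sInf P ∈ P := h.comp.sInf_mem h.ne
theorem sup_mem (h : Good P) : sSup P ∈ P := h.comp.sSup_mem h.ne
theorem inf_le (h : Good P) {x : ℝ} (hx : x ∈ P) : sInf P ≤ x := csInf_le h.comp.bddBelow hx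
theorem le_sup (h : Good P) {x : ℝ} (hx : x ∈ P) : x ≤ sSup P := le_csSup h.comp.bddAbove hx
theorem closed (h : Good P) : IsClosed P := h.comp.isClosed

theorem inf_lt_sup (h : Good P) : sInf P < sSup P := by
  obtain ⟨y, hy, hne, -⟩ := h.acc _ h.inf_mem 1 one_pos
  exact lt_of_lt_of_le (lt_of_le_of_ne (h.inf_le hy) hne.symm) (h.le_sup hy)

end Good

/-- `q n` lies in a gap of `P` -/
def gapI (P : Set ℝ) (n : ℕ) : Prop := q n ∈ Ioo (sInf P) (sSup P) ∧ q n ∉ P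

/-- `P` is not an interval -/
def HasGap (P : Set ℝ) : Prop := ∃ n, gapI P n

/-- first gap rational -/
noncomputable def gi (P : Set ℝ) : ℕ := sInf {n | gapI P n}

noncomputable def g (P : Set ℝ) : ℝ := q (gi P)

theorem gapI_gi {P : Set ℝ} (h : HasGap P) : gapI P (gi P) := Nat.sInf_mem h

theorem gi_le {P : Set ℝ} {n : ℕ} (h : gapI P n) : gi P ≤ n := Nat.sInf_le h

theorem eq_Icc_of_not_hasGap {P : Set ℝ} (hP : Good P) (h : ¬ HasGap P) :
    P = Icc (sInf P) (sSup P) := by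
  apply Subset.antisymm
  · exact fun x hx => ⟨hP.inf_le hx, hP.le_sup hx⟩
  · intro x hx
    by_contra hxP
    -- a rational near `x` outside `P`
    have hx1 : sInf P < x := lt_of_le_of_ne hx.1 (fun h0 => hxP (h0 ▸ hP.inf_mem))
    have hopen : IsOpen (Pᶜ ∩ Ioi (sInf P)) := hP.closed.isOpen_compl.inter isOpen_Ioi
    obtain ⟨ε, hε, hball⟩ := Metric.isOpen_iff.mp hopen x ⟨hxP, hx1⟩
    obtain ⟨n, hn1, hn2⟩ := q_dense (show x - ε < x by linarith)
    have hmem : q n ∈ Pᶜ ∩ Ioi (sInf P) := hball (by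
      rw [Metric.mem_ball, Real.dist_eq, abs_lt]; constructor <;> linarith)
    exact h ⟨n, ⟨hmem.2, lt_of_lt_of_le hn2 hx.2⟩, hmem.1⟩

/-- lower and upper half -/
def lo (P : Set ℝ) (c : ℝ) : Set ℝ := P ∩ Iio c
def hi (P : Set ℝ) (c : ℝ) : Set ℝ := P ∩ Ioi c

theorem lo_eq {P : Set ℝ} {c : ℝ} (hc : c ∉ P) : lo P c = P ∩ Iic c := by
  ext x
  simp only [lo, mem_inter_iff, mem_Iio, mem_Iic]
  constructor
  · rintro ⟨h1, h2⟩; exact ⟨h1, h2.le⟩
  · rintro ⟨h1, h2⟩; exact ⟨h1, lt_of_le_of_ne h2 (fun h => hc (h ▸ h1))⟩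

theorem hi_eq {P : Set ℝ} {c : ℝ} (hc : c ∉ P) : hi P c = P ∩ Ici c := by
  ext x
  simp only [hi, mem_inter_iff, mem_Ioi, mem_Ici]
  constructor
  · rintro ⟨h1, h2⟩; exact ⟨h1, h2.le⟩
  · rintro ⟨h1, h2⟩; exact ⟨h1, lt_of_le_of_ne h2 (fun h => hc (h ▸ h1))⟩

theorem good_lo {P : Set ℝ} (hP : Good P) {c : ℝ} (hc : c ∉ P) (h1 : sInf P < c) :
    Good (lo P c) := by
  refine ⟨?_, ⟨sInf P, hP.inf_mem, h1⟩, ?_⟩
  · rw [lo_eq hc]; exact hP.comp.inter_right isClosed_Iic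
  · rintro x ⟨hx, hxc⟩ ε hε
    obtain ⟨y, hy, hne, hd⟩ := hP.acc x hx (min ε (c - x)) (lt_min hε (sub_pos.mpr hxc))
    refine ⟨y, ⟨hy, ?_⟩, hne, lt_of_lt_of_le hd (min_le_left _ _)⟩
    have := lt_of_lt_of_le hd (min_le_right _ _)
    rw [abs_lt] at this
    simp only [mem_Iio]; linarith

theorem good_hi {P : Set ℝ} (hP : Good P) {c : ℝ} (hc : c ∉ P) (h1 : c < sSup P) :
    Good (hi P c) := by
  refine ⟨?_, ⟨sSup P, hP.sup_mem, h1⟩, ?_⟩
  · rw [hi_eq hc]; exact hP.comp.inter_right isClosed_Ici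
  · rintro x ⟨hx, hxc⟩ ε hε
    obtain ⟨y, hy, hne, hd⟩ := hP.acc x hx (min ε (x - c)) (lt_min hε (sub_pos.mpr hxc))
    refine ⟨y, ⟨hy, ?_⟩, hne, lt_of_lt_of_le hd (min_le_left _ _)⟩
    have := lt_of_lt_of_le hd (min_le_right _ _)
    rw [abs_lt] at this
    simp only [mem_Ioi]; linarith

/-- first interior rational -/
noncomputable def ii (H : Set ℝ) : ℕ := sInf {n | q n ∈ interior H}

noncomputable def pt (H : Set ℝ) : ℝ := q (ii H)

theorem exists_q_interior {H : Set ℝ} (h : (interior H).Nonempty) : ∃ n, q n ∈ interior H := by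
  obtain ⟨x, hx⟩ := h
  obtain ⟨ε, hε, hball⟩ := Metric.isOpen_iff.mp isOpen_interior x hx
  obtain ⟨n, h1, h2⟩ := q_dense (show x < x + ε by linarith)
  exact ⟨n, hball (by rw [Metric.mem_ball, Real.dist_eq, abs_lt]; constructor <;> linarith)⟩

theorem pt_mem {H : Set ℝ} (h : (interior H).Nonempty) : pt H ∈ interior H :=
  Nat.sInf_mem (s := {n | q n ∈ interior H}) (exists_q_interior h)

theorem ii_le {H : Set ℝ} {n : ℕ} (h : q n ∈ interior H) : ii H ≤ n := Nat.sInf_le h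

/-- the component of `pt H` in `H` is `[U H, V H]` -/
noncomputable def U (H : Set ℝ) : ℝ := sInf {a | a ≤ pt H ∧ Icc a (pt H) ⊆ H}
noncomputable def V (H : Set ℝ) : ℝ := sSup {b | pt H ≤ b ∧ Icc (pt H) b ⊆ H}

section comp

variable {H : Set ℝ} (hH : Good H) (hi : (interior H).Nonempty)
include hH hi

theorem U_lt : U H < pt H := by
  obtain ⟨ε, hε, hball⟩ := Metric.isOpen_iff.mp isOpen_interior _ (pt_mem hi)
  have hbdd : BddBelow {a | a ≤ pt H ∧ Icc a (pt H) ⊆ H} :=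
    ⟨sInf H, fun a ha => hH.inf_le (ha.2 ⟨le_refl _, ha.1⟩)⟩
  have hmem : pt H - ε / 2 ∈ {a | a ≤ pt H ∧ Icc a (pt H) ⊆ H} := by
    refine ⟨by linarith, fun x hx => interior_subset (hball ?_)⟩
    rw [Metric.mem_ball, Real.dist_eq, abs_lt]
    constructor <;> linarith [hx.1, hx.2]
  have := csInf_le hbdd hmem
  unfold U
  linarith

theorem lt_V : pt H < V H := by
  obtain ⟨ε, hε, hball⟩ := Metric.isOpen_iff.mp isOpen_interior _ (pt_mem hi)
  have hbdd : BddAbove {b | pt H ≤ b ∧ Icc (pt H) b ⊆ H} :=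
    ⟨sSup H, fun a ha => hH.le_sup (ha.2 ⟨ha.1, le_refl _⟩)⟩
  have hmem : pt H + ε / 2 ∈ {b | pt H ≤ b ∧ Icc (pt H) b ⊆ H} := by
    refine ⟨by linarith, fun x hx => interior_subset (hball ?_)⟩
    rw [Metric.mem_ball, Real.dist_eq, abs_lt]
    constructor <;> linarith [hx.1, hx.2]
  have := le_csSup hbdd hmem
  unfold V
  linarith

theorem Icc_U_subset : Icc (U H) (pt H) ⊆ H := by
  have hne : {a | a ≤ pt H ∧ Icc a (pt H) ⊆ H}.Nonempty :=
    ⟨pt H, le_refl _, fun x hx => by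
      have : x = pt H := le_antisymm hx.2 hx.1
      rw [this]; exact interior_subset (pt_mem hi)⟩
  have hIoc : Ioc (U H) (pt H) ⊆ H := by
    intro x hx
    obtain ⟨a, ha, hax⟩ := exists_lt_of_csInf_lt hne hx.1
    exact ha.2 ⟨hax.le, hx.2⟩
  have := hH.closed.closure_subset_iff.mpr hIoc
  rwa [closure_Ioc (U_lt hH hi).ne] at this

theorem Icc_V_subset : Icc (pt H) (V H) ⊆ H := by
  have hne : {b | pt H ≤ b ∧ Icc (pt H) b ⊆ H}.Nonempty :=
    ⟨pt H, le_refl _, fun x hx => by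
      have : x = pt H := le_antisymm hx.2 hx.1
      rw [this]; exact interior_subset (pt_mem hi)⟩
  have hIco : Ico (pt H) (V H) ⊆ H := by
    intro x hx
    obtain ⟨a, ha, hax⟩ := exists_lt_of_lt_csSup hne hx.2
    exact ha.2 ⟨hx.1, hax.le⟩
  have := hH.closed.closure_subset_iff.mpr hIco
  rwa [closure_Ico (lt_V hH hi).ne] at this

theorem U_lt_V : U H < V H := (U_lt hH hi).trans (lt_V hH hi)

theorem Icc_UV_subset : Icc (U H) (V H) ⊆ H := by
  intro x hx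
  rcases le_total x (pt H) with h | h
  · exact Icc_U_subset hH hi ⟨hx.1, h⟩
  · exact Icc_V_subset hH hi ⟨h, hx.2⟩

/-- to the left of `U H` there is a gap -/
theorem gap_left {x : ℝ} (hx : x < U H) : ∃ k, q k ∈ Ioo x (U H) ∧ q k ∉ H := by
  have hnot : ¬ Icc x (pt H) ⊆ H := by
    intro hsub
    have hbdd : BddBelow {a | a ≤ pt H ∧ Icc a (pt H) ⊆ H} :=
      ⟨sInf H, fun a ha => hH.inf_le (ha.2 ⟨le_refl _, ha.1⟩)⟩
    have : U H ≤ x := csInf_le hbdd ⟨(hx.trans (U_lt hH hi)).le, hsub⟩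
    linarith
  rw [Set.not_subset] at hnot
  obtain ⟨y, hy, hyH⟩ := hnot
  have hyU : y < U H := by
    by_contra hcon
    push Not at hcon
    exact hyH (Icc_U_subset hH hi ⟨hcon, hy.2⟩)
  obtain ⟨ε, hε, hball⟩ := Metric.isOpen_iff.mp hH.closed.isOpen_compl y hyH
  obtain ⟨k, h1, h2⟩ := q_dense (show y < min (y + ε) (U H) from lt_min (by linarith) hyU)
  refine ⟨k, ⟨lt_of_le_of_lt hy.1 h1, lt_of_lt_of_le h2 (min_le_right _ _)⟩, ?_⟩
  have := lt_of_lt_of_le h2 (min_le_left _ _)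
  exact hball (by rw [Metric.mem_ball, Real.dist_eq, abs_lt]; constructor <;> linarith)

theorem gap_right {x : ℝ} (hx : V H < x) : ∃ k, q k ∈ Ioo (V H) x ∧ q k ∉ H := by
  have hnot : ¬ Icc (pt H) x ⊆ H := by
    intro hsub
    have hbdd : BddAbove {b | pt H ≤ b ∧ Icc (pt H) b ⊆ H} :=
      ⟨sSup H, fun a ha => hH.le_sup (ha.2 ⟨ha.1, le_refl _⟩)⟩
    have : x ≤ V H := le_csSup hbdd ⟨((lt_V hH hi).trans hx).le, hsub⟩
    linarith
  rw [Set.not_subset] at hnot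
  obtain ⟨y, hy, hyH⟩ := hnot
  have hyU : V H < y := by
    by_contra hcon
    push Not at hcon
    exact hyH (Icc_V_subset hH hi ⟨hy.1, hcon⟩)
  obtain ⟨ε, hε, hball⟩ := Metric.isOpen_iff.mp hH.closed.isOpen_compl y hyH
  obtain ⟨k, h1, h2⟩ := q_dense (show max (y - ε) (V H) < y from max_lt (by linarith) hyU)
  refine ⟨k, ⟨lt_of_le_of_lt (le_max_right _ _) h1, lt_of_lt_of_le h2 hy.2⟩, ?_⟩
  have := lt_of_le_of_lt (le_max_left _ _) h1
  exact hball (by rw [Metric.mem_ball, Real.dist_eq, abs_lt]; constructor <;> linarith)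

end comp

/-- the part to the left of `U H`, resp. to the right of `V H` -/
def L (H : Set ℝ) : Set ℝ := closure (H ∩ Iio (U H))
def R (H : Set ℝ) : Set ℝ := closure (H ∩ Ioi (V H))

theorem L_subset {H : Set ℝ} (hH : Good H) : L H ⊆ H ∩ Iic (U H) :=
  closure_minimal (fun _ hx => ⟨hx.1, mem_Iic.mpr (le_of_lt (mem_Iio.mp hx.2))⟩)
    (hH.closed.inter isClosed_Iic)

theorem R_subset {H : Set ℝ} (hH : Good H) : R H ⊆ H ∩ Ici (V H) :=
  closure_minimal (fun _ hx => ⟨hx.1, mem_Ici.mpr (le_of_lt (mem_Ioi.mp hx.2))⟩)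
    (hH.closed.inter isClosed_Ici)

theorem subset_L {H : Set ℝ} : H ∩ Iio (U H) ⊆ L H := subset_closure
theorem subset_R {H : Set ℝ} : H ∩ Ioi (V H) ⊆ R H := subset_closure

theorem good_L {H : Set ℝ} (hH : Good H) (hne : (L H).Nonempty) : Good (L H) := by
  refine ⟨hH.comp.of_isClosed_subset isClosed_closure
    ((L_subset hH).trans inter_subset_left), hne, ?_⟩
  intro x hx ε hε
  rcases lt_or_eq_of_le (mem_Iic.mp (L_subset hH hx).2) with h | h
  · obtain ⟨y, hy, hyne, hd⟩ := hH.acc x (L_subset hH hx).1 (min ε (U H - x))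
      (lt_min hε (sub_pos.mpr h))
    refine ⟨y, subset_L ⟨hy, ?_⟩, hyne, lt_of_lt_of_le hd (min_le_left _ _)⟩
    have := lt_of_lt_of_le hd (min_le_right _ _)
    rw [abs_lt] at this
    simp only [mem_Iio]; linarith
  · obtain ⟨y, hy, hd⟩ := Metric.mem_closure_iff.mp hx ε hε
    refine ⟨y, subset_L hy, ?_, ?_⟩
    · rw [h]; exact hy.2.ne
    · rw [← Real.dist_eq, dist_comm]; exact hd

theorem good_R {H : Set ℝ} (hH : Good H) (hne : (R H).Nonempty) : Good (R H) := by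
  refine ⟨hH.comp.of_isClosed_subset isClosed_closure
    ((R_subset hH).trans inter_subset_left), hne, ?_⟩
  intro x hx ε hε
  rcases lt_or_eq_of_le (mem_Ici.mp (R_subset hH hx).2) with h | h
  · obtain ⟨y, hy, hyne, hd⟩ := hH.acc x (R_subset hH hx).1 (min ε (x - V H))
      (lt_min hε (sub_pos.mpr h))
    refine ⟨y, subset_R ⟨hy, ?_⟩, hyne, lt_of_lt_of_le hd (min_le_left _ _)⟩
    have := lt_of_lt_of_le hd (min_le_right _ _)
    rw [abs_lt] at this
    simp only [mem_Ioi]; linarith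
  · obtain ⟨y, hy, hd⟩ := Metric.mem_closure_iff.mp hx ε hε
    refine ⟨y, subset_R hy, ?_, ?_⟩
    · rw [← h]; exact hy.2.ne'
    · rw [← Real.dist_eq, dist_comm]; exact hd

/-- `Q` is an order-convex subset of `P` -/
def Cvx (P Q : Set ℝ) : Prop := Q ⊆ P ∧ ∀ x ∈ Q, ∀ y ∈ Q, ∀ z ∈ P, x ≤ z → z ≤ y → z ∈ Q

theorem Cvx.trans {P Q R : Set ℝ} (h1 : Cvx P Q) (h2 : Cvx Q R) : Cvx P R :=
  ⟨h2.1.trans h1.1, fun x hx y hy z hz hxz hzy =>
    h2.2 x hx y hy z (h1.2 x (h2.1 hx) y (h2.1 hy) z hz hxz hzy) hxz hzy⟩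

theorem cvx_lo (P : Set ℝ) (c : ℝ) : Cvx P (lo P c) :=
  ⟨inter_subset_left, fun _ _ _ hy _ hz _ hzy => ⟨hz, lt_of_le_of_lt hzy hy.2⟩⟩

theorem cvx_hi (P : Set ℝ) (c : ℝ) : Cvx P (hi P c) :=
  ⟨inter_subset_left, fun _ hx _ _ _ hz hxz _ => ⟨hz, lt_of_lt_of_le hx.2 hxz⟩⟩

theorem cvx_L {H : Set ℝ} (hH : Good H) : Cvx H (L H) := by
  refine ⟨(L_subset hH).trans inter_subset_left, fun x _ y hy z hz _ hzy => ?_⟩
  rcases lt_or_eq_of_le (hzy.trans (L_subset hH hy).2) with h | h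
  · exact subset_L ⟨hz, h⟩
  · have : z = y := le_antisymm hzy (h ▸ (L_subset hH hy).2)
    rw [this]; exact hy

theorem cvx_R {H : Set ℝ} (hH : Good H) : Cvx H (R H) := by
  refine ⟨(R_subset hH).trans inter_subset_left, fun x hx y _ z hz hxz _ => ?_⟩
  rcases lt_or_eq_of_le ((show V H ≤ x from (R_subset hH hx).2).trans hxz) with h | h
  · exact subset_R ⟨hz, h⟩
  · have : z = x := le_antisymm (h ▸ (show V H ≤ x from (R_subset hH hx).2)) hxz
    rw [this]; exact hx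

theorem Cvx.gapI {P Q : Set ℝ} (h : Cvx P Q) (hP : Good P) (hQ : Good Q) {n : ℕ}
    (hn : gapI Q n) : gapI P n := by
  refine ⟨⟨lt_of_le_of_lt (hP.inf_le (h.1 hQ.inf_mem)) hn.1.1,
    lt_of_lt_of_le hn.1.2 (hP.le_sup (h.1 hQ.sup_mem))⟩, fun hmem => hn.2 ?_⟩
  exact h.2 _ hQ.inf_mem _ hQ.sup_mem _ hmem hn.1.1.le hn.1.2.le

end Pool.Agent.Lib.MP_8027ba_an
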