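import Pool.Agent.Lib.MP_8027ba_an.Phi

/-!
`Phi P` is strictly increasing and continuous on `P`.
-/

namespace Pool.Agent.Lib.MP_8027ba_an

open Set Filter Topology

/-- `Q` is a sub-block of the half `H` placed at `a` -/
def BChild (H Q : Set ℝ) (a : ℝ) : Prop :=
  ((interior H).Nonempty ∧ ((Q = L H ∧ a = 0) ∨ (Q = R H ∧ a = 2/5))) ∨
  (¬ (interior H).Nonempty ∧ ((Q = lo H (g H) ∧ a = 0) ∨ (Q = hi H (g H) ∧ a = 1/10)))

theorem BChild.good {H Q : Set ℝ} {a : ℝ} (hH : Good H) (h : BChild H Q a) (hne : Q.Nonempty) :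
    Good Q := by
  rcases h with ⟨_, h | h⟩ | ⟨h0, h | h⟩
  · rw [h.1] at hne ⊢; exact good_L hH hne
  · rw [h.1] at hne ⊢; exact good_R hH hne
  · rw [h.1]; exact good_lo_g hH (hasGap_of_interior_empty hH h0)
  · rw [h.1]; exact good_hi_g hH (hasGap_of_interior_empty hH h0)

theorem BChild.cvx {H Q : Set ℝ} {a : ℝ} (hH : Good H) (h : BChild H Q a) : Cvx H Q := by
  rcases h with ⟨_, h | h⟩ | ⟨h0, h | h⟩
  · rw [h.1]; exact cvx_L hH
  · rw [h.1]; exact cvx_R hH
  · rw [h.1]; exact cvx_lo _ _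
  · rw [h.1]; exact cvx_hi _ _

theorem BChild.val {H Q : Set ℝ} {a : ℝ} (hH : Good H) (h : BChild H Q a) {x : ℝ} (hx : x ∈ Q) :
    BPhi H x = a + 1/20 * Phi Q x := by
  rcases h with ⟨h0, h | h⟩ | ⟨h0, h | h⟩
  · rw [h.1] at hx ⊢; rw [h.2, BPhi_L' hH h0 hx]; ring
  · rw [h.1] at hx ⊢; rw [h.2, BPhi_R' hH h0 hx]
  · rw [h.1] at hx ⊢; rw [h.2, BPhi_lo h0 hx.2]; ring
  · rw [h.1] at hx ⊢; rw [h.2, BPhi_hi h0 hx.2]

theorem BChild.ii_lt {H Q : Set ℝ} {a : ℝ} (hH : Good H) (h : BChild H Q a)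
    (hne : (interior Q).Nonempty) : pt H ∉ interior Q := by
  rcases h with ⟨h0, h | h⟩ | ⟨h0, h | h⟩
  · intro hmem
    rw [h.1] at hmem
    have := (L_subset hH (interior_subset hmem)).2
    exact absurd (U_lt hH h0) (not_lt.mpr this)
  · intro hmem
    rw [h.1] at hmem
    have := (R_subset hH (interior_subset hmem)).2
    exact absurd (lt_V hH h0) (not_lt.mpr this)
  · exfalso
    apply h0
    rw [h.1] at hne
    exact hne.mono (interior_mono inter_subset_left)
  · exfalso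
    apply h0
    rw [h.1] at hne
    exact hne.mono (interior_mono inter_subset_left)

/-- comparison inside a block -/
theorem block_cases {H : Set ℝ} (hH : Good H) {x y : ℝ} (hx : x ∈ H) (hy : y ∈ H) (hxy : x < y) :
    (∃ Q a, BChild H Q a ∧ x ∈ Q ∧ y ∈ Q) ∨ BPhi H x < BPhi H y := by
  by_cases hi : (interior H).Nonempty
  · have hUV := U_lt_V hH hi
    have hsl := sl_mem H
    have hsr := sr_mem H
    rcases cover_LIR hx with hxL | hxI | hxR
    · rcases cover_LIR hy with hyL | hyI | hyR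
      · exact Or.inl ⟨L H, 0, Or.inl ⟨hi, Or.inl ⟨rfl, rfl⟩⟩, hxL, hyL⟩
      · have h1 := BPhi_L' hH hi hxL
        have h2 := BPhi_I hi hyI
        have h3 := Phi_le_one (L H) x
        have h4 := fr_nonneg (U H) (V H) y
        by_cases hUL : U H ∈ L H
        · rcases eq_or_lt_of_le hyI.1 with h | h
          · rw [← h]
            exact Or.inl ⟨L H, 0, Or.inl ⟨hi, Or.inl ⟨rfl, rfl⟩⟩, hxL, hUL⟩
          · right
            have h5 : 0 < fr (U H) (V H) y := by
              rw [← fr_left hUV]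
              exact fr_lt ⟨le_refl _, hUV.le⟩ hyI h
            have h6 : sl H = 1/20 := by
              rw [sl, if_neg (Set.nonempty_iff_ne_empty.mp ⟨_, hUL⟩), if_pos hUL]
            rw [h1, h2, h6]
            nlinarith
        · right
          have h6 : sl H = 1/10 := by
            rw [sl, if_neg (Set.nonempty_iff_ne_empty.mp ⟨_, hxL⟩), if_neg hUL]
          rw [h1, h2, h6]
          nlinarith
      · right
        rw [BPhi_L' hH hi hxL, BPhi_R' hH hi hyR]
        linarith [Phi_le_one (L H) x, Phi_nonneg (R H) y]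
    · rcases cover_LIR hy with hyL | hyI | hyR
      · exact absurd (hxI.1.trans_lt hxy) (not_lt.mpr (L_subset hH hyL).2)
      · right
        rw [BPhi_I hi hxI, BPhi_I hi hyI]
        have := fr_lt hxI hyI hxy
        nlinarith
      · have h1 := BPhi_R' hH hi hyR
        have h2 := BPhi_I hi hxI
        have h3 := Phi_nonneg (R H) y
        have h4 := fr_le_one (U H) (V H) x
        by_cases hVR : V H ∈ R H
        · rcases eq_or_lt_of_le hxI.2 with h | h
          · rw [h]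
            exact Or.inl ⟨R H, 2/5, Or.inl ⟨hi, Or.inr ⟨rfl, rfl⟩⟩, hVR, hyR⟩
          · right
            have h5 : fr (U H) (V H) x < 1 := by
              rw [← fr_right hUV]
              exact fr_lt hxI ⟨hUV.le, le_refl _⟩ h
            have h6 : sr H = 1/20 := by
              rw [sr, if_neg (Set.nonempty_iff_ne_empty.mp ⟨_, hVR⟩), if_pos hVR]
            rw [h1, h2, h6]
            nlinarith
        · right
          have h6 : sr H = 1/10 := by
            rw [sr, if_neg (Set.nonempty_iff_ne_empty.mp ⟨_, hyR⟩), if_neg hVR]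
          rw [h1, h2, h6]
          nlinarith
    · rcases cover_LIR hy with hyL | hyI | hyR
      · exact absurd (hUV.trans_le ((R_subset hH hxR).2.trans hxy.le))
          (not_lt.mpr (L_subset hH hyL).2)
      · exact absurd ((show V H ≤ x from (R_subset hH hxR).2).trans_lt hxy) (not_lt.mpr hyI.2)
      · exact Or.inl ⟨R H, 2/5, Or.inl ⟨hi, Or.inr ⟨rfl, rfl⟩⟩, hxR, hyR⟩
  · have hg := hasGap_of_interior_empty hH hi
    have hxg : x ≠ g H := fun h => g_notMem hg (h ▸ hx)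
    have hyg : y ≠ g H := fun h => g_notMem hg (h ▸ hy)
    rcases lt_or_gt_of_ne hxg with h1 | h1
    · rcases lt_or_gt_of_ne hyg with h2 | h2
      · exact Or.inl ⟨lo H (g H), 0, Or.inr ⟨hi, Or.inl ⟨rfl, rfl⟩⟩, ⟨hx, h1⟩, ⟨hy, h2⟩⟩
      · right
        rw [BPhi_lo hi h1, BPhi_hi hi h2]
        linarith [Phi_le_one (lo H (g H)) x, Phi_nonneg (MP_8027ba_an.hi H (g H)) y]
    · exact Or.inl ⟨MP_8027ba_an.hi H (g H), 1/10, Or.inr ⟨hi, Or.inr ⟨rfl, rfl⟩⟩, ⟨hx, h1⟩,
        ⟨hy, h1.trans hxy⟩⟩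

/-- comparison inside a piece -/
theorem piece_cases {P : Set ℝ} (hP : Good P) {x y : ℝ} (hx : x ∈ P) (hy : y ∈ P) (hxy : x < y) :
    (∃ Q a, Good Q ∧ Cvx P Q ∧ (HasGap Q → gi P < gi Q) ∧
      ((interior Q).Nonempty → ii P < ii Q) ∧ (∀ z ∈ Q, Phi P z = a + 1/20 * Phi Q z) ∧
      x ∈ Q ∧ y ∈ Q) ∨ Phi P x < Phi P y := by
  have aux : ∀ H : Set ℝ, Cvx P H → ∀ Q a, Good Q → Good H → BChild H Q a →
      (interior Q).Nonempty → ii P < ii Q := by
    intro H hPH Q a hQ hH hc hint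
    have hQH := hc.cvx hH
    have hiQ : q (ii Q) ∈ interior Q := pt_mem hint
    have hiH : q (ii Q) ∈ interior H := interior_mono hQH.1 hiQ
    have hiP : q (ii Q) ∈ interior P := interior_mono hPH.1 hiH
    refine lt_of_le_of_ne (ii_le hiP) ?_
    intro heq
    have h1 : ii H ≤ ii Q := ii_le hiH
    have h2 : ii P ≤ ii H := ii_le (interior_mono hPH.1 (pt_mem ⟨_, hiH⟩))
    have h3 : ii H = ii Q := le_antisymm h1 (heq ▸ h2)
    have h4 := hc.ii_lt hH hint
    rw [pt, h3] at h4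
    exact h4 hiQ
  have aux2 : ∀ Q, Good Q → Cvx P Q → HasGap P → (Q ⊆ Iio (g P) ∨ Q ⊆ Ioi (g P)) →
      HasGap Q → gi P < gi Q := by
    intro Q hQ hPQ hg hside hgQ
    have h1 : gi P ≤ gi Q := gi_le (hPQ.gapI hP hQ (gapI_gi hgQ))
    refine lt_of_le_of_ne h1 ?_
    intro heq
    have h2 : sInf Q < g P ∧ g P < sSup Q := by
      have := (gapI_gi hgQ).1
      rw [← heq] at this
      exact this
    rcases hside with h | h
    · exact absurd (h hQ.sup_mem) (not_lt.mpr h2.2.le)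
    · exact absurd (h hQ.inf_mem) (not_lt.mpr h2.1.le)
  by_cases hg : HasGap P
  · have hxg : x ≠ g P := fun h => g_notMem hg (h ▸ hx)
    have hyg : y ≠ g P := fun h => g_notMem hg (h ▸ hy)
    rcases lt_or_gt_of_ne hxg with h1 | h1
    · rcases lt_or_gt_of_ne hyg with h2 | h2
      · rw [Phi_gap_lo hg h1, Phi_gap_lo hg h2]
        have hH := good_lo_g hP hg
        rcases block_cases hH (x := x) (y := y) ⟨hx, h1⟩ ⟨hy, h2⟩ hxy with ⟨Q, a, hc, hxQ, hyQ⟩ | h
        · left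
          have hQ := hc.good hH ⟨_, hxQ⟩
          have hcv := (cvx_lo P (g P)).trans (hc.cvx hH)
          refine ⟨Q, a, hQ, hcv, aux2 Q hQ hcv hg (Or.inl ?_),
            aux _ (cvx_lo P (g P)) Q a hQ hH hc, ?_, hxQ, hyQ⟩
          · exact fun z hz => ((hc.cvx hH).1 hz).2
          · intro z hz
            rw [Phi_gap_lo hg ((hc.cvx hH).1 hz).2]
            exact hc.val hH hz
        · right; exact h
      · right
        rw [Phi_gap_lo hg h1, Phi_gap_hi hg h2]
        linarith [BPhi_le_w (H := lo P (g P)) x, BPhi_nonneg (H := hi P (g P)) y,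
          (w_mem (lo P (g P))).2, (w_mem (hi P (g P))).2]
    · have h2 := h1.trans hxy
      rw [Phi_gap_hi hg h1, Phi_gap_hi hg h2]
      have hH := good_hi_g hP hg
      rcases block_cases hH (x := x) (y := y) ⟨hx, h1⟩ ⟨hy, h2⟩ hxy with ⟨Q, a, hc, hxQ, hyQ⟩ | h
      · left
        have hQ := hc.good hH ⟨_, hxQ⟩
        have hcv := (cvx_hi P (g P)).trans (hc.cvx hH)
        refine ⟨Q, 1 - w (hi P (g P)) + a, hQ, hcv, aux2 Q hQ hcv hg (Or.inr ?_),
          aux _ (cvx_hi P (g P)) Q a hQ hH hc, ?_, hxQ, hyQ⟩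
        · exact fun z hz => ((hc.cvx hH).1 hz).2
        · intro z hz
          rw [Phi_gap_hi hg ((hc.cvx hH).1 hz).2, hc.val hH hz]
          ring
      · right; linarith
  · right
    rw [Phi_nogap hg, Phi_nogap hg]
    exact fr_lt ⟨hP.inf_le hx, hP.le_sup hx⟩ ⟨hP.inf_le hy, hP.le_sup hy⟩ hxy

theorem Phi_strict {P : Set ℝ} (hP : Good P) {x y : ℝ} (hx : x ∈ P) (hy : y ∈ P) (hxy : x < y) :
    Phi P x < Phi P y := by
  have stage1 : ∀ n : ℕ, ∀ P, Good P → x ∈ P → y ∈ P →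
      (∃ k, q k ∈ Ioo x y ∧ q k ∉ P ∧ k < gi P + n) → Phi P x < Phi P y := by
    intro n
    induction n with
    | zero =>
      rintro P hP hx hy ⟨k, hk, hkP, hlt⟩
      have : gi P ≤ k := gi_le ⟨⟨(hP.inf_le hx).trans_lt hk.1, hk.2.trans_le (hP.le_sup hy)⟩, hkP⟩
      omega
    | succ n ih =>
      rintro P hP hx hy ⟨k, hk, hkP, hlt⟩
      rcases piece_cases hP hx hy hxy with ⟨Q, a, hQ, hcv, h1, h2, h3, hxQ, hyQ⟩ | h
      · have hkQ : q k ∉ Q := fun h => hkP (hcv.1 h)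
        have hgQ : HasGap Q :=
          ⟨k, ⟨(hQ.inf_le hxQ).trans_lt hk.1, hk.2.trans_le (hQ.le_sup hyQ)⟩, hkQ⟩
        have := h1 hgQ
        have := ih Q hQ hxQ hyQ ⟨k, hk, hkQ, by omega⟩
        rw [h3 x hxQ, h3 y hyQ]
        linarith
      · exact h
  have stage2 : ∀ n : ℕ, ∀ P, Good P → x ∈ P → y ∈ P → Icc x y ⊆ P →
      (∃ k, q k ∈ Ioo x y ∧ k < ii P + n) → Phi P x < Phi P y := by
    intro n
    induction n with
    | zero =>
      rintro P hP hx hy hsub ⟨k, hk, hlt⟩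
      have : ii P ≤ k := ii_le (interior_maximal (Ioo_subset_Icc_self.trans hsub) isOpen_Ioo hk)
      omega
    | succ n ih =>
      rintro P hP hx hy hsub ⟨k, hk, hlt⟩
      rcases piece_cases hP hx hy hxy with ⟨Q, a, hQ, hcv, h1, h2, h3, hxQ, hyQ⟩ | h
      · have hsubQ : Icc x y ⊆ Q := fun z hz => hcv.2 x hxQ y hyQ z (hsub hz) hz.1 hz.2
        have hi : q k ∈ interior Q :=
          interior_maximal (Ioo_subset_Icc_self.trans hsubQ) isOpen_Ioo hk
        have := h2 ⟨_, hi⟩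
        have := ih Q hQ hxQ hyQ hsubQ ⟨k, hk, by omega⟩
        rw [h3 x hxQ, h3 y hyQ]
        linarith
      · exact h
  by_cases hsub : Icc x y ⊆ P
  · obtain ⟨k, h1, h2⟩ := q_dense hxy
    exact stage2 (k + 1) P hP hx hy hsub ⟨k, ⟨h1, h2⟩, by omega⟩
  · rw [Set.not_subset] at hsub
    obtain ⟨z, hz, hzP⟩ := hsub
    have hxz : x < z := lt_of_le_of_ne hz.1 (fun h => hzP (h ▸ hx))
    have hopen : IsOpen (Pᶜ ∩ Ioi x) := hP.closed.isOpen_compl.inter isOpen_Ioi
    obtain ⟨ε, hε, hball⟩ := Metric.isOpen_iff.mp hopen z ⟨hzP, hxz⟩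
    obtain ⟨k, hk1, hk2⟩ := q_dense (show z - ε < z by linarith)
    have hmem : q k ∈ Pᶜ ∩ Ioi x := hball (by
      rw [Metric.mem_ball, Real.dist_eq, abs_lt]; constructor <;> linarith)
    exact stage1 (k + 1) P hP hx hy ⟨k, ⟨hmem.2, hk2.trans_le hz.2⟩, hmem.1, by omega⟩

/-- oscillation at `x` along `S` -/
def Osc (f : ℝ → ℝ) (S : Set ℝ) (x ε : ℝ) : Prop :=
  ∃ δ > 0, ∀ y ∈ S, |y - x| < δ → |f y - f x| ≤ ε

theorem Osc.union {f : ℝ → ℝ} {S S' : Set ℝ} {x ε : ℝ} (h : Osc f S x ε) (h' : Osc f S' x ε) :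
    Osc f (S ∪ S') x ε := by
  obtain ⟨δ, hδ, h⟩ := h
  obtain ⟨δ', hδ', h'⟩ := h'
  refine ⟨min δ δ', lt_min hδ hδ', ?_⟩
  rintro y (hy | hy) hd
  · exact h y hy (hd.trans_le (min_le_left _ _))
  · exact h' y hy (hd.trans_le (min_le_right _ _))

theorem Osc.mono {f : ℝ → ℝ} {S S' : Set ℝ} {x ε : ℝ} (h : Osc f S' x ε) (hs : S ⊆ S') :
    Osc f S x ε := by
  obtain ⟨δ, hδ, h⟩ := h
  exact ⟨δ, hδ, fun y hy => h y (hs hy)⟩

theorem Osc.of_closed {f : ℝ → ℝ} {S : Set ℝ} {x ε : ℝ} (hS : IsClosed S)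
    (h : x ∈ S → Osc f S x ε) : Osc f S x ε := by
  by_cases hx : x ∈ S
  · exact h hx
  · obtain ⟨δ, hδ, hball⟩ := Metric.isOpen_iff.mp hS.isOpen_compl x hx
    refine ⟨δ, hδ, fun y hy hd => ?_⟩
    exact absurd hy (hball (by rw [Metric.mem_ball, Real.dist_eq]; exact hd))

theorem Osc.of_cont {f F : ℝ → ℝ} {S : Set ℝ} {x ε : ℝ} (hε : 0 < ε) (hF : Continuous F)
    (hx : x ∈ S) (h : ∀ y ∈ S, f y = F y) : Osc f S x ε := by
  obtain ⟨δ, hδ, hd⟩ := Metric.continuous_iff.mp hF x ε hε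
  refine ⟨δ, hδ, fun y hy hyx => ?_⟩
  rw [h y hy, h x hx]
  have := hd y (by rw [Real.dist_eq]; exact hyx)
  rw [Real.dist_eq] at this
  exact this.le

theorem Osc.of_child {Q : Set ℝ} {f : ℝ → ℝ} {a x ε : ℝ}
    (hx : x ∈ Q) (hval : ∀ z ∈ Q, f z = a + 1/20 * Phi Q z) (h : Osc (Phi Q) Q x ε) :
    Osc f Q x (ε / 20) := by
  obtain ⟨δ, hδ, hd⟩ := h
  refine ⟨δ, hδ, fun y hy hyx => ?_⟩
  have := hd y hy hyx
  rw [hval y hy, hval x hx]
  rw [abs_le] at this ⊢
  constructor <;> linarith [this.1, this.2]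

theorem osc_Phi (n : ℕ) : ∀ P : Set ℝ, Good P → ∀ x ∈ P, Osc (Phi P) P x ((1/20 : ℝ)^n) := by
  induction n with
  | zero =>
    intro P _ x _
    refine ⟨1, one_pos, fun y _ _ => ?_⟩
    rw [pow_zero, abs_le]
    constructor <;> linarith [Phi_nonneg P x, Phi_nonneg P y, Phi_le_one P x, Phi_le_one P y]
  | succ n ih =>
    have hpos : (0:ℝ) < (1/20)^(n+1) := by positivity
    have heq : (1/20:ℝ)^(n+1) = (1/20)^n / 20 := by rw [pow_succ]; ring
    have block : ∀ H : Set ℝ, Good H → ∀ x ∈ H, Osc (BPhi H) H x ((1/20 : ℝ)^(n+1)) := by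
      intro H hH x hx
      by_cases hi : (interior H).Nonempty
      · have hcov : H ⊆ L H ∪ Icc (U H) (V H) ∪ R H := by
          intro z hz
          rcases cover_LIR hz with h | h | h
          · exact Or.inl (Or.inl h)
          · exact Or.inl (Or.inr h)
          · exact Or.inr h
        refine Osc.mono ((Osc.union (Osc.union ?_ ?_) ?_)) hcov
        · refine Osc.of_closed isClosed_closure (fun hxL => ?_)
          rw [heq]
          exact Osc.of_child hxL (a := 0)
            (fun z hz => by rw [BPhi_L' hH hi hz, zero_add])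
            (ih (L H) (good_L hH ⟨_, hxL⟩) x hxL)
        · refine Osc.of_closed isClosed_Icc (fun hxI => ?_)
          refine Osc.of_cont hpos (F := fun z => sl H + (9/20 - sr H - sl H) * fr (U H) (V H) z)
            ?_ hxI (fun z hz => BPhi_I hi hz)
          exact continuous_const.add (continuous_const.mul (continuous_fr _ _))
        · refine Osc.of_closed isClosed_closure (fun hxR => ?_)
          rw [heq]
          exact Osc.of_child hxR (a := 2/5)
            (fun z hz => BPhi_R' hH hi hz)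
            (ih (R H) (good_R hH ⟨_, hxR⟩) x hxR)
      · have hg := hasGap_of_interior_empty hH hi
        have hcov : H ⊆ lo H (g H) ∪ MP_8027ba_an.hi H (g H) := by
          intro z hz
          rcases lt_or_gt_of_ne (fun h => g_notMem hg (h ▸ hz) : z ≠ g H) with h | h
          · exact Or.inl ⟨hz, h⟩
          · exact Or.inr ⟨hz, h⟩
        have h1 := good_lo_g hH hg
        have h2 := good_hi_g hH hg
        refine Osc.mono (Osc.union ?_ ?_) hcov
        · refine Osc.of_closed h1.closed (fun hxL => ?_)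
          rw [heq]
          exact Osc.of_child hxL (a := 0)
            (fun z hz => by rw [BPhi_lo hi hz.2, zero_add]) (ih _ h1 x hxL)
        · refine Osc.of_closed h2.closed (fun hxR => ?_)
          rw [heq]
          exact Osc.of_child hxR (a := 1/10)
            (fun z hz => BPhi_hi hi hz.2) (ih _ h2 x hxR)
    intro P hP x hx
    by_cases hg : HasGap P
    · have hcov : P ⊆ lo P (g P) ∪ hi P (g P) := by
        intro z hz
        rcases lt_or_gt_of_ne (fun h => g_notMem hg (h ▸ hz) : z ≠ g P) with h | h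
        · exact Or.inl ⟨hz, h⟩
        · exact Or.inr ⟨hz, h⟩
      have h1 := good_lo_g hP hg
      have h2 := good_hi_g hP hg
      refine Osc.mono (Osc.union ?_ ?_) hcov
      · refine Osc.of_closed h1.closed (fun hxL => ?_)
        obtain ⟨δ, hδ, hd⟩ := block _ h1 x hxL
        refine ⟨δ, hδ, fun y hy hyx => ?_⟩
        rw [Phi_gap_lo hg hy.2, Phi_gap_lo hg hxL.2]
        exact hd y hy hyx
      · refine Osc.of_closed h2.closed (fun hxR => ?_)
        obtain ⟨δ, hδ, hd⟩ := block _ h2 x hxR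
        refine ⟨δ, hδ, fun y hy hyx => ?_⟩
        rw [Phi_gap_hi hg hy.2, Phi_gap_hi hg hxR.2]
        have := hd y hy hyx
        rw [abs_le] at this ⊢
        constructor <;> linarith [this.1, this.2]
    · exact Osc.of_cont hpos (F := fr (sInf P) (sSup P)) (continuous_fr _ _) hx
        (fun z _ => Phi_nogap hg z)

theorem continuousOn_Phi {P : Set ℝ} (hP : Good P) : ContinuousOn (Phi P) P := by
  rw [Metric.continuousOn_iff]
  intro x hx ε hε
  obtain ⟨n, hn⟩ := exists_pow_lt_of_lt_one hε (by norm_num : (1/20:ℝ) < 1)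
  obtain ⟨δ, hδ, hd⟩ := osc_Phi n P hP x hx
  refine ⟨δ, hδ, fun y hy hyx => ?_⟩
  rw [Real.dist_eq] at hyx ⊢
  exact (hd y hy hyx).trans_lt hn

theorem isCompact_image {P : Set ℝ} (hP : Good P) : IsCompact (Phi P '' P) :=
  hP.comp.image_of_continuousOn (continuousOn_Phi hP)

theorem injOn_Phi {P : Set ℝ} (hP : Good P) : Set.InjOn (Phi P) P := by
  intro x hx y hy h
  rcases lt_trichotomy x y with h1 | h1 | h1
  · exact absurd h (Phi_strict hP hx hy h1).ne
  · exact h1
  · exact absurd h (Phi_strict hP hy hx h1).ne'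

end Pool.Agent.Lib.MP_8027ba_an
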