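import Pool.Agent.Lib.MP_8027ba_an.Basic

/-!
The order embedding `Phi P : P → [0,1]` of a compact perfect set `P`.
-/

namespace Pool.Agent.Lib.MP_8027ba_an

open Set Filter Topology

/-- clamped affine parameter -/
noncomputable def fr (u v x : ℝ) : ℝ := max 0 (min 1 ((x - u) / (v - u)))

theorem fr_nonneg (u v x : ℝ) : 0 ≤ fr u v x := le_max_left _ _
theorem fr_le_one (u v x : ℝ) : fr u v x ≤ 1 := max_le zero_le_one (min_le_left _ _)

theorem fr_eq {u v x : ℝ} (huv : u < v) (hx : x ∈ Icc u v) : fr u v x = (x - u) / (v - u) := by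
  have h1 : 0 ≤ (x - u) / (v - u) := div_nonneg (by linarith [hx.1]) (by linarith)
  have h2 : (x - u) / (v - u) ≤ 1 := (div_le_one (by linarith)).mpr (by linarith [hx.2])
  unfold fr
  rw [min_eq_right h2, max_eq_right h1]

theorem fr_left {u v : ℝ} (huv : u < v) : fr u v u = 0 := by
  rw [fr_eq huv ⟨le_refl _, huv.le⟩]; simp

theorem fr_right {u v : ℝ} (huv : u < v) : fr u v v = 1 := by
  rw [fr_eq huv ⟨huv.le, le_refl _⟩]; exact div_self (by linarith)

theorem fr_lt {u v x y : ℝ} (hx : x ∈ Icc u v) (hy : y ∈ Icc u v) (hxy : x < y) :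
    fr u v x < fr u v y := by
  have huv : u < v := lt_of_le_of_lt hx.1 (lt_of_lt_of_le hxy hy.2)
  rw [fr_eq huv hx, fr_eq huv hy]
  exact div_lt_div_of_pos_right (by linarith) (by linarith)

theorem fr_surj {u v t : ℝ} (huv : u < v) (ht : t ∈ Icc (0 : ℝ) 1) :
    ∃ x ∈ Icc u v, fr u v x = t := by
  have h0 : 0 < v - u := by linarith
  refine ⟨u + t * (v - u), ⟨?_, ?_⟩, ?_⟩
  · nlinarith [mul_nonneg ht.1 h0.le]
  · nlinarith [mul_nonneg (sub_nonneg.mpr ht.2) h0.le]
  · rw [fr_eq huv ⟨?_, ?_⟩]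
    · field_simp; ring
    · nlinarith [mul_nonneg ht.1 h0.le]
    · nlinarith [mul_nonneg (sub_nonneg.mpr ht.2) h0.le]

theorem continuous_fr (u v : ℝ) : Continuous (fr u v) := by
  unfold fr
  fun_prop

open Classical in
/-- left shift of the interval part -/
noncomputable def sl (H : Set ℝ) : ℝ := if L H = ∅ then 0 else if U H ∈ L H then 1/20 else 1/10

open Classical in
/-- right shift of the interval part -/
noncomputable def sr (H : Set ℝ) : ℝ := if R H = ∅ then 0 else if V H ∈ R H then 1/20 else 1/10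

open Classical in
noncomputable def w (H : Set ℝ) : ℝ := if (interior H).Nonempty then 9/20 else 3/20

open Classical in
noncomputable def ba (H : Set ℝ) (x : ℝ) : ℝ :=
  if (interior H).Nonempty then
    (if x < U H then 0 else if x ≤ V H then sl H + (9/20 - sr H - sl H) * fr (U H) (V H) x
      else 2/5)
  else (if x < g H then 0 else 1/10)

open Classical in
noncomputable def bch (H : Set ℝ) (x : ℝ) : Set ℝ :=
  if (interior H).Nonempty then
    (if x < U H then L H else if x ≤ V H then ∅ else R H)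
  else (if x < g H then lo H (g H) else hi H (g H))

open Classical in
noncomputable def al (P : Set ℝ) (x : ℝ) : ℝ :=
  if HasGap P then
    (if x < g P then ba (lo P (g P)) x else 1 - w (hi P (g P)) + ba (hi P (g P)) x)
  else fr (sInf P) (sSup P) x

open Classical in
noncomputable def ch (P : Set ℝ) (x : ℝ) : Set ℝ :=
  if HasGap P then
    (if x < g P then bch (lo P (g P)) x else bch (hi P (g P)) x)
  else ∅

theorem sl_mem (H : Set ℝ) : 0 ≤ sl H ∧ sl H ≤ 1/10 := by
  unfold sl; split_ifs <;> norm_num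

theorem sr_mem (H : Set ℝ) : 0 ≤ sr H ∧ sr H ≤ 1/10 := by
  unfold sr; split_ifs <;> norm_num

theorem w_mem (H : Set ℝ) : 3/20 ≤ w H ∧ w H ≤ 9/20 := by
  unfold w; split_ifs <;> norm_num

theorem int_mem (H : Set ℝ) (x : ℝ) :
    sl H ≤ sl H + (9/20 - sr H - sl H) * fr (U H) (V H) x ∧
      sl H + (9/20 - sr H - sl H) * fr (U H) (V H) x ≤ 9/20 - sr H := by
  have h1 := fr_nonneg (U H) (V H) x
  have h2 := fr_le_one (U H) (V H) x
  have h3 := sl_mem H
  have h4 := sr_mem H
  constructor <;> nlinarith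

theorem ba_nonneg (H : Set ℝ) (x : ℝ) : 0 ≤ ba H x := by
  have h3 := sl_mem H
  have h := int_mem H x
  unfold ba; split_ifs <;> linarith

theorem al_nonneg (P : Set ℝ) (x : ℝ) : 0 ≤ al P x := by
  have := w_mem (hi P (g P))
  unfold al
  split_ifs
  · exact ba_nonneg _ _
  · linarith [ba_nonneg (hi P (g P)) x]
  · exact fr_nonneg _ _ _

/-- either the child is empty and `ba ≤ w` or `ba ≤ w - 1/20` -/
theorem ba_le (H : Set ℝ) (x : ℝ) : (bch H x = ∅ ∧ ba H x ≤ w H) ∨ ba H x ≤ w H - 1/20 := by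
  have h3 := sl_mem H
  have h4 := sr_mem H
  have h := int_mem H x
  unfold bch ba w
  split_ifs
  · right; norm_num
  · left; exact ⟨rfl, by linarith⟩
  · right; norm_num
  · right; norm_num
  · right; norm_num

theorem al_le (P : Set ℝ) (x : ℝ) : (ch P x = ∅ ∧ al P x ≤ 1) ∨ al P x ≤ 1 - 1/20 := by
  unfold al ch
  split_ifs
  · rcases ba_le (lo P (g P)) x with h | h
    · left; exact ⟨h.1, by linarith [(w_mem (lo P (g P))).2]⟩
    · right; linarith [(w_mem (lo P (g P))).2]
  · rcases ba_le (hi P (g P)) x with h | h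
    · left; exact ⟨h.1, by linarith⟩
    · right; linarith
  · left; exact ⟨rfl, fr_le_one _ _ _⟩

theorem al_le_one (P : Set ℝ) (x : ℝ) : al P x ≤ 1 := by
  rcases al_le P x with h | h
  · exact h.2
  · linarith

theorem not_hasGap_empty : ¬ HasGap ∅ := by
  rintro ⟨n, ⟨h1, h2⟩, -⟩
  simp only [Real.sInf_empty, Real.sSup_empty] at h1 h2
  linarith

theorem ch_empty (x : ℝ) : ch ∅ x = ∅ := by
  unfold ch; rw [if_neg not_hasGap_empty]

theorem al_empty (x : ℝ) : al ∅ x = 0 := by
  unfold al; rw [if_neg not_hasGap_empty]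
  simp [fr]

/-- the order embedding -/
noncomputable def Phi (P : Set ℝ) (x : ℝ) : ℝ :=
  ∑' n : ℕ, (1/20 : ℝ)^n * al ((fun Q => ch Q x)^[n] P) x

theorem summable_Phi (P : Set ℝ) (x : ℝ) :
    Summable fun n : ℕ => (1/20 : ℝ)^n * al ((fun Q => ch Q x)^[n] P) x := by
  refine Summable.of_nonneg_of_le (fun n => mul_nonneg (by positivity) (al_nonneg _ _))
    (fun n => ?_) (summable_geometric_of_lt_one (by norm_num : (0:ℝ) ≤ 1/20) (by norm_num))
  have := al_le_one ((fun Q => ch Q x)^[n] P) x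
  have h : (0:ℝ) ≤ (1/20)^n := by positivity
  nlinarith

theorem Phi_eq (P : Set ℝ) (x : ℝ) : Phi P x = al P x + 1/20 * Phi (ch P x) x := by
  unfold Phi
  rw [(summable_Phi P x).tsum_eq_zero_add, ← tsum_mul_left]
  simp only [pow_zero, one_mul, Function.iterate_zero, id_eq, Function.iterate_succ,
    Function.comp_apply]
  congr 1
  apply tsum_congr
  intro n
  ring

theorem Phi_empty (x : ℝ) : Phi ∅ x = 0 := by
  have h := Phi_eq ∅ x
  rw [ch_empty, al_empty] at h
  linarith

theorem Phi_nonneg (P : Set ℝ) (x : ℝ) : 0 ≤ Phi P x :=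
  tsum_nonneg (fun n => mul_nonneg (by positivity) (al_nonneg _ _))

theorem Phi_le_one (P : Set ℝ) (x : ℝ) : Phi P x ≤ 1 := by
  have key : ∀ n : ℕ, ∀ P : Set ℝ,
      ∑ k ∈ Finset.range n, (1/20 : ℝ)^k * al ((fun Q => ch Q x)^[k] P) x ≤ 1 ∧
      (P = ∅ → ∑ k ∈ Finset.range n, (1/20 : ℝ)^k * al ((fun Q => ch Q x)^[k] P) x ≤ 0) := by
    intro n
    induction n with
    | zero => intro P; simp
    | succ n ih =>
      intro P
      rw [Finset.sum_range_succ']
      have hsum : ∑ k ∈ Finset.range n,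
          (1/20 : ℝ)^(k+1) * al ((fun Q => ch Q x)^[k+1] P) x =
          1/20 * ∑ k ∈ Finset.range n, (1/20 : ℝ)^k * al ((fun Q => ch Q x)^[k] (ch P x)) x := by
        rw [Finset.mul_sum]
        apply Finset.sum_congr rfl
        intro k _
        rw [Function.iterate_succ, Function.comp_apply]
        ring
      rw [hsum]
      simp only [pow_zero, one_mul, Function.iterate_zero, id_eq]
      obtain ⟨h1, h2⟩ := ih (ch P x)
      refine ⟨?_, ?_⟩
      · rcases al_le P x with h | h
        · have := h2 h.1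
          linarith [h.2]
        · linarith
      · rintro rfl
        rw [al_empty]
        have := h2 (ch_empty x)
        linarith
  exact (summable_Phi P x).tsum_le_of_sum_range_le (fun n => (key n P).1)

/-- block map -/
noncomputable def BPhi (H : Set ℝ) (x : ℝ) : ℝ := ba H x + 1/20 * Phi (bch H x) x

theorem Phi_gap_lo {P : Set ℝ} (hg : HasGap P) {x : ℝ} (hx : x < g P) :
    Phi P x = BPhi (lo P (g P)) x := by
  rw [Phi_eq, BPhi, al, ch, if_pos hg, if_pos hg, if_pos hx, if_pos hx]

theorem Phi_gap_hi {P : Set ℝ} (hg : HasGap P) {x : ℝ} (hx : g P < x) :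
    Phi P x = 1 - w (hi P (g P)) + BPhi (hi P (g P)) x := by
  rw [Phi_eq, BPhi, al, ch, if_pos hg, if_pos hg, if_neg (not_lt.mpr hx.le),
    if_neg (not_lt.mpr hx.le)]
  ring

theorem Phi_nogap {P : Set ℝ} (hg : ¬ HasGap P) (x : ℝ) :
    Phi P x = fr (sInf P) (sSup P) x := by
  rw [Phi_eq, al, ch, if_neg hg, if_neg hg, Phi_empty]
  ring

section block

variable {H : Set ℝ}

theorem BPhi_L (hi : (interior H).Nonempty) {x : ℝ} (hx : x < U H) :
    BPhi H x = 1/20 * Phi (L H) x := by
  rw [BPhi, ba, bch, if_pos hi, if_pos hi, if_pos hx, if_pos hx]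
  ring

theorem BPhi_I (hi : (interior H).Nonempty) {x : ℝ} (hx : x ∈ Icc (U H) (V H)) :
    BPhi H x = sl H + (9/20 - sr H - sl H) * fr (U H) (V H) x := by
  rw [BPhi, ba, bch, if_pos hi, if_pos hi, if_neg (not_lt.mpr hx.1), if_neg (not_lt.mpr hx.1),
    if_pos hx.2, if_pos hx.2, Phi_empty]
  ring

theorem BPhi_R (hi : (interior H).Nonempty) (huv : U H < V H) {x : ℝ} (hx : V H < x) :
    BPhi H x = 2/5 + 1/20 * Phi (R H) x := by
  rw [BPhi, ba, bch, if_pos hi, if_pos hi, if_neg (not_lt.mpr (huv.trans hx).le),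
    if_neg (not_lt.mpr (huv.trans hx).le), if_neg (not_le.mpr hx), if_neg (not_le.mpr hx)]

theorem BPhi_lo (hi : ¬ (interior H).Nonempty) {x : ℝ} (hx : x < g H) :
    BPhi H x = 1/20 * Phi (lo H (g H)) x := by
  rw [BPhi, ba, bch, if_neg hi, if_neg hi, if_pos hx, if_pos hx]
  ring

theorem BPhi_hi (hi' : ¬ (interior H).Nonempty) {x : ℝ} (hx : g H < x) :
    BPhi H x = 1/10 + 1/20 * Phi (hi H (g H)) x := by
  rw [BPhi, ba, bch, if_neg hi', if_neg hi', if_neg (not_lt.mpr hx.le),
    if_neg (not_lt.mpr hx.le)]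

end block

theorem hasGap_of_interior_empty {P : Set ℝ} (hP : Good P) (h : ¬ (interior P).Nonempty) :
    HasGap P := by
  by_contra hg
  apply h
  have := eq_Icc_of_not_hasGap hP hg
  refine ⟨(sInf P + sSup P) / 2, ?_⟩
  have h2 : Ioo (sInf P) (sSup P) ⊆ P := fun y hy => this.symm ▸ ⟨hy.1.le, hy.2.le⟩
  have hlt := hP.inf_lt_sup
  exact interior_maximal h2 isOpen_Ioo ⟨by linarith, by linarith⟩

theorem inf_lt_g {P : Set ℝ} (hg : HasGap P) : sInf P < g P := (gapI_gi hg).1.1
theorem g_lt_sup {P : Set ℝ} (hg : HasGap P) : g P < sSup P := (gapI_gi hg).1.2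
theorem g_notMem {P : Set ℝ} (hg : HasGap P) : g P ∉ P := (gapI_gi hg).2

theorem good_lo_g {P : Set ℝ} (hP : Good P) (hg : HasGap P) : Good (lo P (g P)) :=
  good_lo hP (gapI_gi hg).2 (gapI_gi hg).1.1

theorem good_hi_g {P : Set ℝ} (hP : Good P) (hg : HasGap P) : Good (hi P (g P)) :=
  good_hi hP (gapI_gi hg).2 (gapI_gi hg).1.2

theorem sInf_lo {P : Set ℝ} (hP : Good P) {c : ℝ} (h : sInf P < c) : sInf (lo P c) = sInf P := by
  apply le_antisymm
  · exact csInf_le (hP.comp.bddBelow.mono inter_subset_left) ⟨hP.inf_mem, h⟩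
  · exact le_csInf ⟨_, hP.inf_mem, h⟩ (fun y hy => hP.inf_le hy.1)

theorem sSup_hi {P : Set ℝ} (hP : Good P) {c : ℝ} (h : c < sSup P) : sSup (hi P c) = sSup P := by
  apply le_antisymm
  · exact csSup_le ⟨_, hP.sup_mem, h⟩ (fun y hy => hP.le_sup hy.1)
  · exact le_csSup (hP.comp.bddAbove.mono inter_subset_left) ⟨hP.sup_mem, h⟩

theorem L_eq_empty {H : Set ℝ} (hH : Good H) (h : U H ≤ sInf H) : L H = ∅ := by
  have : H ∩ Iio (U H) = ∅ := by
    ext x
    simp only [mem_inter_iff, mem_Iio, mem_empty_iff_false, iff_false, not_and, not_lt]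
    intro hx
    exact h.trans (hH.inf_le hx)
  rw [L, this, closure_empty]

theorem R_eq_empty {H : Set ℝ} (hH : Good H) (h : sSup H ≤ V H) : R H = ∅ := by
  have : H ∩ Ioi (V H) = ∅ := by
    ext x
    simp only [mem_inter_iff, mem_Ioi, mem_empty_iff_false, iff_false, not_and, not_lt]
    intro hx
    exact (hH.le_sup hx).trans h
  rw [R, this, closure_empty]

theorem sInf_L {H : Set ℝ} (hH : Good H) (h : sInf H < U H) : sInf (L H) = sInf H := by
  have hm : sInf H ∈ L H := subset_L ⟨hH.inf_mem, h⟩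
  have hb : BddBelow (L H) := hH.comp.bddBelow.mono ((L_subset hH).trans inter_subset_left)
  exact le_antisymm (csInf_le hb hm) (le_csInf ⟨_, hm⟩ (fun y hy => hH.inf_le (L_subset hH hy).1))

theorem sSup_R {H : Set ℝ} (hH : Good H) (h : V H < sSup H) : sSup (R H) = sSup H := by
  have hm : sSup H ∈ R H := subset_R ⟨hH.sup_mem, h⟩
  have hb : BddAbove (R H) := hH.comp.bddAbove.mono ((R_subset hH).trans inter_subset_left)
  exact le_antisymm (csSup_le ⟨_, hm⟩ (fun y hy => hH.le_sup (R_subset hH hy).1)) (le_csSup hb hm)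

/-- the value at the minimum is zero -/
theorem Phi_inf {P : Set ℝ} (hP : Good P) : Phi P (sInf P) = 0 := by
  have key : ∀ n : ℕ, ∀ P : Set ℝ, Good P → Phi P (sInf P) ≤ (1/20 : ℝ)^n := by
    intro n
    induction n with
    | zero => intro P _; simpa using Phi_le_one P _
    | succ n ih =>
      intro P hP
      have hpos : (0:ℝ) ≤ (1/20)^(n+1) := by positivity
      by_cases hg : HasGap P
      · have hH := good_lo_g hP hg
        have hlt := inf_lt_g hg
        rw [Phi_gap_lo hg hlt]
        rw [← sInf_lo hP hlt]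
        set H := lo P (g P) with hHdef
        by_cases hi : (interior H).Nonempty
        · rcases lt_or_ge (sInf H) (U H) with h | h
          · rw [BPhi_L hi h, ← sInf_L hH h]
            have hne : (L H).Nonempty := ⟨_, subset_L ⟨hH.inf_mem, h⟩⟩
            have := ih (L H) (good_L hH hne)
            rw [pow_succ]
            linarith
          · have hUV := U_lt_V hH hi
            have hU : sInf H = U H := le_antisymm
              (hH.inf_le (Icc_UV_subset hH hi ⟨le_refl _, hUV.le⟩)) h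
            rw [BPhi_I hi ⟨h, hU ▸ hUV.le⟩, hU, fr_left hUV]
            have : sl H = 0 := by rw [sl, if_pos (L_eq_empty hH h)]
            rw [this]
            linarith
        · have hg' := hasGap_of_interior_empty hH hi
          have hlt' := inf_lt_g hg'
          rw [BPhi_lo hi hlt', ← sInf_lo hH hlt']
          have := ih _ (good_lo_g hH hg')
          rw [pow_succ]
          linarith
      · rw [Phi_nogap hg, fr_left hP.inf_lt_sup]
        exact hpos
  have hlim : Tendsto (fun n : ℕ => (1/20 : ℝ)^n) atTop (𝓝 0) :=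
    tendsto_pow_atTop_nhds_zero_of_lt_one (by norm_num) (by norm_num)
  exact le_antisymm (ge_of_tendsto' hlim (fun n => key n P hP)) (Phi_nonneg _ _)

/-- the value at the maximum is one -/
theorem Phi_sup {P : Set ℝ} (hP : Good P) : Phi P (sSup P) = 1 := by
  have key : ∀ n : ℕ, ∀ P : Set ℝ, Good P → 1 - Phi P (sSup P) ≤ (1/20 : ℝ)^n := by
    intro n
    induction n with
    | zero => intro P _; simpa using Phi_nonneg P _
    | succ n ih =>
      intro P hP
      have hpos : (0:ℝ) ≤ (1/20)^(n+1) := by positivity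
      by_cases hg : HasGap P
      · have hH := good_hi_g hP hg
        have hlt := g_lt_sup hg
        rw [Phi_gap_hi hg hlt]
        rw [← sSup_hi hP hlt]
        set H := hi P (g P) with hHdef
        by_cases hi : (interior H).Nonempty
        · have hw : w H = 9/20 := by rw [w, if_pos hi]
          have hUV := U_lt_V hH hi
          rcases lt_or_ge (V H) (sSup H) with h | h
          · rw [BPhi_R hi hUV h, ← sSup_R hH h]
            have hne : (R H).Nonempty := ⟨_, subset_R ⟨hH.sup_mem, h⟩⟩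
            have := ih (R H) (good_R hH hne)
            rw [pow_succ]
            linarith
          · have hV : sSup H = V H := le_antisymm h
              (hH.le_sup (Icc_UV_subset hH hi ⟨hUV.le, le_refl _⟩))
            rw [BPhi_I hi ⟨hV ▸ hUV.le, h⟩, hV, fr_right hUV]
            have : sr H = 0 := by rw [sr, if_pos (R_eq_empty hH h)]
            rw [this]
            linarith
        · have hw : w H = 3/20 := by rw [w, if_neg hi]
          have hg' := hasGap_of_interior_empty hH hi
          have hlt' := g_lt_sup hg'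
          rw [BPhi_hi hi hlt', ← sSup_hi hH hlt']
          have := ih _ (good_hi_g hH hg')
          rw [pow_succ]
          linarith
      · rw [Phi_nogap hg, fr_right hP.inf_lt_sup]
        linarith
  have hlim : Tendsto (fun n : ℕ => (1/20 : ℝ)^n) atTop (𝓝 0) :=
    tendsto_pow_atTop_nhds_zero_of_lt_one (by norm_num) (by norm_num)
  have h0 : 1 - Phi P (sSup P) ≤ 0 := ge_of_tendsto' hlim (fun n => key n P hP)
  exact le_antisymm (Phi_le_one _ _) (by linarith)

section block

variable {H : Set ℝ} (hH : Good H) (hi : (interior H).Nonempty)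
include hH

theorem sup_L_of_mem (h : U H ∈ L H) : sSup (L H) = U H := by
  have hb : BddAbove (L H) := hH.comp.bddAbove.mono ((L_subset hH).trans inter_subset_left)
  exact le_antisymm (csSup_le ⟨_, h⟩ (fun y hy => (L_subset hH hy).2)) (le_csSup hb h)

theorem inf_R_of_mem (h : V H ∈ R H) : sInf (R H) = V H := by
  have hb : BddBelow (R H) := hH.comp.bddBelow.mono ((R_subset hH).trans inter_subset_left)
  exact le_antisymm (csInf_le hb h) (le_csInf ⟨_, h⟩ (fun y hy => (R_subset hH hy).2))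

include hi

/-- value on the closed left child -/
theorem BPhi_L' {x : ℝ} (hx : x ∈ L H) : BPhi H x = 1/20 * Phi (L H) x := by
  rcases lt_or_eq_of_le (mem_Iic.mp (L_subset hH hx).2) with h | h
  · exact BPhi_L hi h
  · subst h
    have hUV := U_lt_V hH hi
    rw [BPhi_I hi ⟨le_refl _, hUV.le⟩, fr_left hUV]
    have h1 := Phi_sup (good_L hH ⟨_, hx⟩)
    rw [sup_L_of_mem hH hx] at h1
    rw [h1, sl, if_neg (Set.nonempty_iff_ne_empty.mp ⟨_, hx⟩), if_pos hx]
    ring

theorem BPhi_R' {x : ℝ} (hx : x ∈ R H) : BPhi H x = 2/5 + 1/20 * Phi (R H) x := by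
  have hUV := U_lt_V hH hi
  rcases lt_or_eq_of_le (mem_Ici.mp (R_subset hH hx).2) with h | h
  · exact BPhi_R hi hUV h
  · subst h
    rw [BPhi_I hi ⟨hUV.le, le_refl _⟩, fr_right hUV]
    have h1 := Phi_inf (good_R hH ⟨_, hx⟩)
    rw [inf_R_of_mem hH hx] at h1
    rw [h1, sr, if_neg (Set.nonempty_iff_ne_empty.mp ⟨_, hx⟩), if_pos hx]
    ring

omit hH hi in
theorem cover_LIR {x : ℝ} (hx : x ∈ H) : x ∈ L H ∨ x ∈ Icc (U H) (V H) ∨ x ∈ R H := by
  rcases lt_or_ge x (U H) with h | h
  · exact Or.inl (subset_L ⟨hx, h⟩)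
  · rcases lt_or_ge (V H) x with h' | h'
    · exact Or.inr (Or.inr (subset_R ⟨hx, h'⟩))
    · exact Or.inr (Or.inl ⟨h, h'⟩)

end block

theorem BPhi_nonneg {H : Set ℝ} (x : ℝ) : 0 ≤ BPhi H x := by
  unfold BPhi
  linarith [ba_nonneg H x, Phi_nonneg (bch H x) x]

theorem BPhi_le_w {H : Set ℝ} (x : ℝ) : BPhi H x ≤ w H := by
  unfold BPhi
  rcases ba_le H x with h | h
  · rw [h.1, Phi_empty]; linarith [h.2]
  · linarith [Phi_le_one (bch H x) x]

end Pool.Agent.Lib.MP_8027ba_an
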