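import Pool.Agent.Lib.MP_8027ba_an.Order

/-!
Every point of `Phi P '' P` lies in a translate of the Cantor set `T` contained in `Phi P '' P`.
-/

namespace Pool.Agent.Lib.MP_8027ba_an

open Set Filter Topology

/-- finite digit sums -/
def Tn : ℕ → Set ℝ
  | 0 => {0}
  | n + 1 => {t | ∃ t' ∈ Tn n, t = t' / 20 ∨ t = 1/10 + t' / 20}

theorem Tn_zero {n : ℕ} : (0:ℝ) ∈ Tn n := by
  induction n with
  | zero => simp [Tn]
  | succ n ih => exact ⟨0, ih, Or.inl (by simp)⟩

theorem Tn_mem {n : ℕ} : ∀ t ∈ Tn n, 0 ≤ t ∧ t ≤ 2/19 := by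
  induction n with
  | zero => intro t ht; simp only [Tn, mem_singleton_iff] at ht; subst ht; norm_num
  | succ n ih =>
    rintro t ⟨t', ht', h | h⟩ <;> obtain ⟨h1, h2⟩ := ih t' ht' <;> subst h <;>
      constructor <;> linarith

theorem Tn_max (n : ℕ) : ∃ m ∈ Tn n, ∀ t ∈ Tn n, t ≤ m := by
  induction n with
  | zero => exact ⟨0, by simp [Tn], fun t ht => by simp only [Tn, mem_singleton_iff] at ht; linarith⟩
  | succ n ih =>
    obtain ⟨m, hm, hmax⟩ := ih
    refine ⟨1/10 + m/20, ⟨m, hm, Or.inr rfl⟩, ?_⟩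
    rintro t ⟨t', ht', h | h⟩ <;> have := hmax t' ht' <;> subst h <;> linarith

theorem interval_sat {a b : ℝ} (hab : a + 1/4 ≤ b) {y : ℝ} (hy : y ∈ Icc a b) (n : ℕ) :
    ∃ f, y - f ∈ Tn n ∧ ∀ t ∈ Tn n, f + t ∈ Icc a b := by
  rcases le_total y ((a + b)/2) with h | h
  · refine ⟨y, by rw [sub_self]; exact Tn_zero, fun t ht => ?_⟩
    obtain ⟨h1, h2⟩ := Tn_mem t ht
    exact ⟨by linarith [hy.1], by linarith⟩
  · obtain ⟨m, hm, hmax⟩ := Tn_max n
    refine ⟨y - m, by rw [sub_sub_cancel]; exact hm, fun t ht => ?_⟩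
    obtain ⟨h1, h2⟩ := Tn_mem t ht
    obtain ⟨h3, h4⟩ := Tn_mem m hm
    have := hmax t ht
    exact ⟨by linarith, by linarith [hy.2]⟩

theorem interior_lo_empty {P : Set ℝ} (h : ¬ (interior P).Nonempty) (c : ℝ) :
    ¬ (interior (lo P c)).Nonempty := fun h' => h (h'.mono (interior_mono inter_subset_left))

theorem interior_hi_empty {P : Set ℝ} (h : ¬ (interior P).Nonempty) (c : ℝ) :
    ¬ (interior (hi P c)).Nonempty := fun h' => h (h'.mono (interior_mono inter_subset_left))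

theorem split_g {P : Set ℝ} (hg : HasGap P) {z : ℝ} (hz : z ∈ P) :
    z ∈ lo P (g P) ∨ z ∈ hi P (g P) := by
  rcases lt_or_gt_of_ne (fun h => g_notMem hg (h ▸ hz) : z ≠ g P) with h | h
  · exact Or.inl ⟨hz, h⟩
  · exact Or.inr ⟨hz, h⟩

/-- all pieces with empty interior have approximately the same image -/
theorem cantor_approx (n : ℕ) : ∀ P P' : Set ℝ, Good P → Good P' → ¬ (interior P).Nonempty →
    ¬ (interior P').Nonempty → ∀ x ∈ P, ∃ x' ∈ P', |Phi P x - Phi P' x'| ≤ (1/20 : ℝ)^n := by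
  induction n with
  | zero =>
    intro P P' hP hP' _ _ x hx
    obtain ⟨x', hx'⟩ := hP'.ne
    refine ⟨x', hx', ?_⟩
    rw [pow_zero, abs_le]
    constructor <;> linarith [Phi_nonneg P x, Phi_nonneg P' x', Phi_le_one P x, Phi_le_one P' x']
  | succ n ih =>
    have heq : (1/20:ℝ)^(n+1) = (1/20)^n / 20 := by rw [pow_succ]; ring
    have block : ∀ H H' : Set ℝ, Good H → Good H' → ¬ (interior H).Nonempty →
        ¬ (interior H').Nonempty → ∀ x ∈ H, ∃ x' ∈ H', |BPhi H x - BPhi H' x'| ≤ (1/20:ℝ)^(n+1) := by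
      intro H H' hH hH' hi hi' x hx
      have hg := hasGap_of_interior_empty hH hi
      have hg' := hasGap_of_interior_empty hH' hi'
      rcases split_g hg hx with h | h
      · obtain ⟨x', hx', hd⟩ := ih _ _ (good_lo_g hH hg) (good_lo_g hH' hg')
          (interior_lo_empty hi _) (interior_lo_empty hi' _) x h
        refine ⟨x', hx'.1, ?_⟩
        rw [BPhi_lo hi h.2, BPhi_lo hi' hx'.2, heq]
        rw [abs_le] at hd ⊢
        constructor <;> linarith [hd.1, hd.2]
      · obtain ⟨x', hx', hd⟩ := ih _ _ (good_hi_g hH hg) (good_hi_g hH' hg')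
          (interior_hi_empty hi _) (interior_hi_empty hi' _) x h
        refine ⟨x', hx'.1, ?_⟩
        rw [BPhi_hi hi h.2, BPhi_hi hi' hx'.2, heq]
        rw [abs_le] at hd ⊢
        constructor <;> linarith [hd.1, hd.2]
    intro P P' hP hP' hi hi' x hx
    have hg := hasGap_of_interior_empty hP hi
    have hg' := hasGap_of_interior_empty hP' hi'
    rcases split_g hg hx with h | h
    · obtain ⟨x', hx', hd⟩ := block _ _ (good_lo_g hP hg) (good_lo_g hP' hg')
          (interior_lo_empty hi _) (interior_lo_empty hi' _) x h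
      refine ⟨x', hx'.1, ?_⟩
      rw [Phi_gap_lo hg h.2, Phi_gap_lo hg' hx'.2]
      exact hd
    · obtain ⟨x', hx', hd⟩ := block _ _ (good_hi_g hP hg) (good_hi_g hP' hg')
          (interior_hi_empty hi _) (interior_hi_empty hi' _) x h
      refine ⟨x', hx'.1, ?_⟩
      rw [Phi_gap_hi hg h.2, Phi_gap_hi hg' hx'.2, w, w,
        if_neg (interior_hi_empty hi _), if_neg (interior_hi_empty hi' _)]
      rw [abs_le] at hd ⊢
      constructor <;> linarith [hd.1, hd.2]

theorem mem_of_approx {A : Set ℝ} (hA : IsClosed A) {y : ℝ}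
    (h : ∀ n : ℕ, ∃ z ∈ A, |y - z| ≤ (1/20:ℝ)^n) : y ∈ A := by
  rw [← hA.closure_eq, Metric.mem_closure_iff]
  intro ε hε
  obtain ⟨n, hn⟩ := exists_pow_lt_of_lt_one hε (by norm_num : (1/20:ℝ) < 1)
  obtain ⟨z, hz, hd⟩ := h n
  exact ⟨z, hz, by rw [Real.dist_eq]; exact hd.trans_lt hn⟩

theorem cantor_image {P P' : Set ℝ} (hP : Good P) (hP' : Good P') (hi : ¬ (interior P).Nonempty)
    (hi' : ¬ (interior P').Nonempty) {y : ℝ} (hy : y ∈ Phi P '' P) : y ∈ Phi P' '' P' := by
  obtain ⟨x, hx, rfl⟩ := hy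
  refine mem_of_approx (isCompact_image hP').isClosed (fun n => ?_)
  obtain ⟨x', hx', hd⟩ := cantor_approx n P P' hP hP' hi hi' x hx
  exact ⟨Phi P' x', ⟨x', hx', rfl⟩, hd⟩

theorem block_surj {H : Set ℝ} (hH : Good H) (hi : (interior H).Nonempty) {v : ℝ}
    (hv : v ∈ Icc (sl H) (9/20 - sr H)) : v ∈ BPhi H '' H := by
  have hUV := U_lt_V hH hi
  have h1 := sl_mem H
  have h2 := sr_mem H
  have hpos : 0 < 9/20 - sr H - sl H := by linarith
  obtain ⟨z, hz, hzv⟩ := fr_surj hUV (t := (v - sl H) / (9/20 - sr H - sl H))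
    ⟨div_nonneg (by linarith [hv.1]) hpos.le, (div_le_one hpos).mpr (by linarith [hv.2])⟩
  refine ⟨z, Icc_UV_subset hH hi hz, ?_⟩
  rw [BPhi_I hi hz, hzv, mul_div_cancel₀ _ hpos.ne']
  ring

/-- saturation with respect to the finite digit sums -/
theorem sat_n (n : ℕ) : ∀ P : Set ℝ, Good P → ∀ x ∈ P,
    ∃ f, Phi P x - f ∈ Tn n ∧ ∀ t ∈ Tn n, f + t ∈ Phi P '' P := by
  induction n with
  | zero =>
    intro P _ x hx
    refine ⟨Phi P x, by rw [sub_self]; exact Tn_zero, fun t ht => ?_⟩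
    simp only [Tn, mem_singleton_iff] at ht
    subst ht
    rw [add_zero]
    exact ⟨x, hx, rfl⟩
  | succ n ih =>
    have block : ∀ H : Set ℝ, Good H → ∀ x ∈ H,
        ∃ f, BPhi H x - f ∈ Tn (n+1) ∧ ∀ t ∈ Tn (n+1), f + t ∈ BPhi H '' H := by
      intro H hH x hx
      by_cases hi : (interior H).Nonempty
      · have h1 := sl_mem H
        have h2 := sr_mem H
        rcases cover_LIR hx with hxL | hxI | hxR
        · obtain ⟨f, hf, hft⟩ := ih (L H) (good_L hH ⟨_, hxL⟩) x hxL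
          refine ⟨f/20, ⟨_, hf, Or.inl ?_⟩, ?_⟩
          · rw [BPhi_L' hH hi hxL]; ring
          · rintro t ⟨t', ht', h | h⟩ <;> obtain ⟨z, hz, hzv⟩ := hft t' ht'
            · refine ⟨z, (L_subset hH hz).1, ?_⟩
              rw [BPhi_L' hH hi hz, hzv, h]; ring
            · apply block_surj hH hi
              have h3 := Phi_nonneg (L H) z
              have h4 := Phi_le_one (L H) z
              rw [h]
              constructor <;> linarith
        · have hm := int_mem H x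
          obtain ⟨f, hf, hft⟩ := interval_sat (a := sl H) (b := 9/20 - sr H) (by linarith)
            (y := BPhi H x) (by rw [BPhi_I hi hxI]; exact hm) (n+1)
          exact ⟨f, hf, fun t ht => block_surj hH hi (hft t ht)⟩
        · obtain ⟨f, hf, hft⟩ := ih (R H) (good_R hH ⟨_, hxR⟩) x hxR
          refine ⟨3/10 + f/20, ⟨_, hf, Or.inr ?_⟩, ?_⟩
          · rw [BPhi_R' hH hi hxR]; ring
          · rintro t ⟨t', ht', h | h⟩ <;> obtain ⟨z, hz, hzv⟩ := hft t' ht'
            · apply block_surj hH hi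
              have h3 := Phi_nonneg (R H) z
              have h4 := Phi_le_one (R H) z
              rw [h]
              constructor <;> linarith
            · refine ⟨z, (R_subset hH hz).1, ?_⟩
              rw [BPhi_R' hH hi hz, hzv, h]; ring
      · have hg := hasGap_of_interior_empty hH hi
        have hL := good_lo_g hH hg
        have hR := good_hi_g hH hg
        have iL := interior_lo_empty hi (g H)
        have iR := interior_hi_empty hi (g H)
        rcases split_g hg hx with hxL | hxR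
        · obtain ⟨f, hf, hft⟩ := ih _ hL x hxL
          refine ⟨f/20, ⟨_, hf, Or.inl ?_⟩, ?_⟩
          · rw [BPhi_lo hi hxL.2]; ring
          · rintro t ⟨t', ht', h | h⟩
            · obtain ⟨z, hz, hzv⟩ := hft t' ht'
              refine ⟨z, hz.1, ?_⟩
              rw [BPhi_lo hi hz.2, hzv, h]; ring
            · obtain ⟨z, hz, hzv⟩ := cantor_image hL hR iL iR (hft t' ht')
              refine ⟨z, hz.1, ?_⟩
              rw [BPhi_hi hi hz.2, hzv, h]; ring
        · obtain ⟨f, hf, hft⟩ := ih _ hR x hxR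
          refine ⟨f/20, ⟨_, hf, Or.inr ?_⟩, ?_⟩
          · rw [BPhi_hi hi hxR.2]; ring
          · rintro t ⟨t', ht', h | h⟩
            · obtain ⟨z, hz, hzv⟩ := cantor_image hR hL iR iL (hft t' ht')
              refine ⟨z, hz.1, ?_⟩
              rw [BPhi_lo hi hz.2, hzv, h]; ring
            · obtain ⟨z, hz, hzv⟩ := hft t' ht'
              refine ⟨z, hz.1, ?_⟩
              rw [BPhi_hi hi hz.2, hzv, h]; ring
    intro P hP x hx
    by_cases hg : HasGap P
    · rcases split_g hg hx with h | h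
      · obtain ⟨f, hf, hft⟩ := block _ (good_lo_g hP hg) x h
        refine ⟨f, by rw [Phi_gap_lo hg h.2]; exact hf, fun t ht => ?_⟩
        obtain ⟨z, hz, hzv⟩ := hft t ht
        exact ⟨z, hz.1, by rw [Phi_gap_lo hg hz.2]; exact hzv⟩
      · obtain ⟨f, hf, hft⟩ := block _ (good_hi_g hP hg) x h
        refine ⟨1 - w (hi P (g P)) + f, ?_, fun t ht => ?_⟩
        · rw [Phi_gap_hi hg h.2, add_sub_add_left_eq_sub]; exact hf
        · obtain ⟨z, hz, hzv⟩ := hft t ht
          exact ⟨z, hz.1, by rw [Phi_gap_hi hg hz.2, hzv, add_assoc]⟩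
    · have hlt := hP.inf_lt_sup
      obtain ⟨f, hf, hft⟩ := interval_sat (a := 0) (b := 1) (by norm_num)
        (y := Phi P x) ⟨Phi_nonneg _ _, Phi_le_one _ _⟩ (n+1)
      refine ⟨f, hf, fun t ht => ?_⟩
      obtain ⟨z, hz, hzv⟩ := fr_surj hlt (hft t ht)
      exact ⟨z, (eq_Icc_of_not_hasGap hP hg).symm ▸ hz, by rw [Phi_nogap hg]; exact hzv⟩

/-- the two point sets `{0, 2 (1/20)^(j+1)}` -/
noncomputable def dig (j : ℕ) : Set ℝ := {0, 2 * (1/20)^(j+1)}

/-- the set of all infinite digit sums -/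
def T : Set ℝ := {t | ∃ e : ℕ → ℝ, (∀ j, e j ∈ dig j) ∧ HasSum e t}

theorem hasSum_geo : HasSum (fun j : ℕ => (2:ℝ) * (1/20)^(j+1)) (2/19) := by
  have h := (hasSum_geometric_of_lt_one (by norm_num : (0:ℝ) ≤ 1/20) (by norm_num)).mul_left
    (2 * (1/20) : ℝ)
  have h2 : (2 * (1/20) * (1 - 1/20)⁻¹ : ℝ) = 2/19 := by norm_num
  rw [h2] at h
  have h3 : (fun j : ℕ => (2:ℝ) * (1/20)^(j+1)) = fun j : ℕ => 2 * (1/20) * (1/20 : ℝ)^j := by
    funext j; rw [pow_succ]; ring
  rw [h3]; exact h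

theorem dig_bounds {j : ℕ} {e : ℝ} (h : e ∈ dig j) : 0 ≤ e ∧ e ≤ 2 * (1/20)^(j+1) := by
  have hpos : (0:ℝ) ≤ 2 * (1/20)^(j+1) := by positivity
  rcases h with h | h
  · rw [h]; exact ⟨le_refl _, hpos⟩
  · rw [mem_singleton_iff.mp h]; exact ⟨hpos, le_refl _⟩

theorem summable_dig {e : ℕ → ℝ} (h : ∀ j, e j ∈ dig j) : Summable e :=
  Summable.of_nonneg_of_le (fun j => (dig_bounds (h j)).1) (fun j => (dig_bounds (h j)).2)
    hasSum_geo.summable

theorem T_bounds {t : ℝ} (ht : t ∈ T) : 0 ≤ t ∧ t ≤ 2/19 := by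
  obtain ⟨e, he, hs⟩ := ht
  exact ⟨hs.nonneg (fun j => (dig_bounds (he j)).1),
    hasSum_le (fun j => (dig_bounds (he j)).2) hs hasSum_geo⟩

theorem zero_mem_T : (0:ℝ) ∈ T := ⟨fun _ => 0, fun _ => Or.inl rfl, hasSum_zero⟩

theorem T_cons {t a : ℝ} (ht : t ∈ T) (ha : a ∈ dig 0) : a + t / 20 ∈ T := by
  obtain ⟨e, he, hs⟩ := ht
  refine ⟨fun n => Nat.casesOn n a (fun j => e j / 20), ?_, ?_⟩
  · intro j
    cases j with
    | zero => exact ha
    | succ j =>
      rcases he j with h | h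
      · left; simp only [h]; norm_num
      · right
        rw [mem_singleton_iff] at h ⊢
        simp only [h]
        rw [pow_succ _ (j+1)]; ring
  · rw [← hasSum_nat_add_iff' 1]
    simp only [Finset.range_one, Finset.sum_singleton]
    have := hs.div_const 20
    have h2 : a + t / 20 - a = t / 20 := by ring
    exact h2.symm ▸ this

theorem T_uncons {t : ℝ} (ht : t ∈ T) : ∃ t' ∈ T, t = t' / 20 ∨ t = 1/10 + t' / 20 := by
  obtain ⟨e, he, hs⟩ := ht
  have hs' := (hasSum_nat_add_iff' 1).mpr hs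
  simp only [Finset.range_one, Finset.sum_singleton] at hs'
  refine ⟨20 * (t - e 0), ⟨fun j => 20 * e (j+1), ?_, hs'.mul_left 20⟩, ?_⟩
  · intro j
    show 20 * e (j+1) ∈ dig j
    rcases he (j+1) with h | h
    · left; rw [h]; norm_num
    · right
      rw [mem_singleton_iff] at h ⊢
      rw [h, pow_succ _ (j+1)]; ring
  · rcases he 0 with h | h
    · left; rw [h]; ring
    · right
      rw [mem_singleton_iff] at h
      rw [h]; ring

theorem Tn_subset_T (n : ℕ) : Tn n ⊆ T := by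
  induction n with
  | zero => intro t ht; simp only [Tn, mem_singleton_iff] at ht; rw [ht]; exact zero_mem_T
  | succ n ih =>
    rintro t ⟨t', ht', h | h⟩
    · rw [h, ← zero_add (t'/20)]; exact T_cons (ih ht') (Or.inl rfl)
    · rw [h]; exact T_cons (ih ht') (Or.inr (by norm_num))

theorem T_approx (n : ℕ) : ∀ t ∈ T, ∃ t' ∈ Tn n, |t - t'| ≤ (1/20 : ℝ)^n := by
  induction n with
  | zero =>
    intro t ht
    refine ⟨0, Tn_zero, ?_⟩
    rw [pow_zero, abs_le]
    constructor <;> linarith [(T_bounds ht).1, (T_bounds ht).2]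
  | succ n ih =>
    intro t ht
    obtain ⟨s, hs, h⟩ := T_uncons ht
    obtain ⟨s', hs', hd⟩ := ih s hs
    have heq : (1/20:ℝ)^(n+1) = (1/20)^n / 20 := by rw [pow_succ]; ring
    rw [abs_le] at hd
    rcases h with h | h
    · refine ⟨s'/20, ⟨s', hs', Or.inl rfl⟩, ?_⟩
      rw [h, heq, abs_le]
      constructor <;> linarith [hd.1, hd.2]
    · refine ⟨1/10 + s'/20, ⟨s', hs', Or.inr rfl⟩, ?_⟩
      rw [h, heq, abs_le]
      constructor <;> linarith [hd.1, hd.2]

theorem isCompact_T : IsCompact T := by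
  have h1 : IsCompact (Set.pi univ dig) := isCompact_univ_pi (fun j => by
    unfold dig; exact (Set.toFinite _).isCompact)
  have h2 : ContinuousOn (fun e : ℕ → ℝ => ∑' j, e j) (Set.pi univ dig) := by
    refine continuousOn_tsum (fun j => (continuous_apply j).continuousOn) hasSum_geo.summable ?_
    intro j e he
    have := dig_bounds (he j (mem_univ _))
    rw [Real.norm_eq_abs, abs_of_nonneg this.1]
    exact this.2
  have h3 : T = (fun e : ℕ → ℝ => ∑' j, e j) '' (Set.pi univ dig) := by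
    ext t
    constructor
    · rintro ⟨e, he, hs⟩
      exact ⟨e, fun j _ => he j, hs.tsum_eq⟩
    · rintro ⟨e, he, rfl⟩
      exact ⟨e, fun j => he j (mem_univ _), (summable_dig (fun j => he j (mem_univ _))).hasSum⟩
  rw [h3]
  exact h1.image_of_continuousOn h2

/-- saturation with respect to `T` -/
theorem sat {P : Set ℝ} (hP : Good P) {y : ℝ} (hy : y ∈ Phi P '' P) :
    ∃ f, y - f ∈ T ∧ ∀ t ∈ T, f + t ∈ Phi P '' P := by
  obtain ⟨x, hx, rfl⟩ := hy
  choose f hf hft using fun n => sat_n n P hP x hx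
  have hbd : ∀ n, f n ∈ Icc (-1:ℝ) 1 := by
    intro n
    have h1 := Tn_mem _ (hf n)
    constructor <;> linarith [Phi_nonneg P x, Phi_le_one P x]
  obtain ⟨F, -, φ, hφ, hlim⟩ := (isCompact_Icc : IsCompact (Icc (-1:ℝ) 1)).tendsto_subseq hbd
  refine ⟨F, ?_, ?_⟩
  · have hcl : IsClosed T := isCompact_T.isClosed
    refine hcl.mem_of_tendsto (tendsto_const_nhds.sub hlim) (Eventually.of_forall (fun n => ?_))
    exact Tn_subset_T _ (hf (φ n))
  · intro t ht
    choose t' ht' hd using fun n => T_approx n t ht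
    have hcl : IsClosed (Phi P '' P) := (isCompact_image hP).isClosed
    have hpow : Tendsto (fun n : ℕ => (1/20 : ℝ)^n) atTop (𝓝 0) :=
      tendsto_pow_atTop_nhds_zero_of_lt_one (by norm_num) (by norm_num)
    have ht2 : Tendsto t' atTop (𝓝 t) := by
      rw [tendsto_iff_dist_tendsto_zero]
      refine squeeze_zero (fun _ => dist_nonneg) (fun n => ?_) hpow
      rw [Real.dist_eq, abs_sub_comm]; exact hd n
    have ht3 : Tendsto (fun n => t' (φ n)) atTop (𝓝 t) := ht2.comp hφ.tendsto_atTop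
    refine hcl.mem_of_tendsto (hlim.add ht3) (Eventually.of_forall (fun n => ?_))
    exact hft (φ n) (t' (φ n)) (ht' (φ n))

end Pool.Agent.Lib.MP_8027ba_an
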